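import Mathlib

/-!
# Kummer extensions of prime degree: the primes modulo which `w` is an `ℓ`-th power split
-/

set_option autoImplicit false
set_option linter.all false

open NumberField Pointwise

namespace Pool.Agent.T2h69.SL.Split

variable {K E : Type} [Field K] [NumberField K] [Field E] [NumberField E] [Algebra K E]

theorem not_one_mem {R : Type} [CommRing R] [IsDomain R] {Q : Ideal R} {ℓ : ℕ} {μ : R}
    (hμ : μ ^ ℓ = 1) (hμ1 : μ ≠ 1) (hQ : (ℓ : R) ∉ Q) : μ - 1 ∉ Q := by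
  intro h
  have h1 : ∑ i ∈ Finset.range ℓ, μ ^ i = 0 := by
    have h2 := mul_geom_sum μ ℓ
    rw [hμ, sub_self] at h2
    exact (mul_eq_zero.1 h2).resolve_left (sub_ne_zero.2 hμ1)
  apply hQ
  have h3 : (ℓ : R) = -∑ i ∈ Finset.range ℓ, (μ ^ i - 1) := by
    rw [Finset.sum_sub_distrib, h1]
    simp
  rw [h3]
  refine neg_mem (sum_mem fun i _ => ?_)
  have h4 : μ - 1 ∣ μ ^ i - 1 := by simpa using sub_dvd_pow_sub_pow μ 1 i
  obtain ⟨c, hc⟩ := h4
  rw [hc]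
  exact Ideal.mul_mem_right _ _ h

theorem split [IsGalois K E] {ℓ : ℕ} (hℓ : ℓ.Prime) (hd : Module.finrank K E = ℓ)
    {ζ : 𝓞 K} (hζ : IsPrimitiveRoot ζ ℓ) {w : 𝓞 K} {α : 𝓞 E}
    (hα : α ^ ℓ = algebraMap (𝓞 K) (𝓞 E) w) (hw : ∀ b : K, b ^ ℓ ≠ w) {q : Ideal (𝓞 K)}
    [hq : q.IsPrime] (hq0 : q ≠ ⊥) {t : 𝓞 K} (ht : t ^ ℓ - w ∈ q) (hwq : w ∉ q)
    (hlq : (ℓ : 𝓞 K) ∉ q) :
    (q.primesOver (𝓞 E)).ncard = ℓ ∧ ∀ Q ∈ q.primesOver (𝓞 E), Ideal.absNorm Q = Ideal.absNorm q := by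
  haveI : IsGaloisGroup Gal(E/K) K E := inferInstance
  haveI : IsGaloisGroup Gal(E/K) (𝓞 K) (𝓞 E) := inferInstance
  have hcard : Nat.card Gal(E/K) = ℓ := by rw [IsGalois.card_aut_eq_finrank, hd]
  have hfund := Ideal.ncard_primesOver_mul_ramificationIdxIn_mul_inertiaDegIn q (𝓞 E) Gal(E/K)
  rw [hcard] at hfund
  have hne : (q.primesOver (𝓞 E)).ncard ≠ 1 := by
    intro h1
    obtain ⟨Q, hQ⟩ := Set.ncard_eq_one.1 h1
    have hQm : Q ∈ q.primesOver (𝓞 E) := by rw [hQ]; rfl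
    haveI := hQm.1
    haveI := hQm.2
    have hmem : ∀ a : 𝓞 K, algebraMap (𝓞 K) (𝓞 E) a ∈ Q ↔ a ∈ q := by
      intro a
      rw [Ideal.over_def Q q]
      rfl
    have hζE : IsPrimitiveRoot (algebraMap (𝓞 K) (𝓞 E) ζ) ℓ :=
      hζ.map_of_injective (FaithfulSMul.algebraMap_injective (𝓞 K) (𝓞 E))
    -- `α` is congruent to a conjugate of `t`
    obtain ⟨j, hj⟩ : ∃ j : ℕ, α - algebraMap (𝓞 K) (𝓞 E) (ζ ^ j * t) ∈ Q := by
      have h2 : α ^ ℓ - (algebraMap (𝓞 K) (𝓞 E) t) ^ ℓ ∈ Q := by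
        rw [hα, ← map_pow, ← map_sub, hmem, ← neg_sub]
        exact neg_mem ht
      rw [IsPrimitiveRoot.pow_sub_pow_eq_prod_sub_mul _ _ hℓ.pos hζE] at h2
      obtain ⟨μ, hμ, h3⟩ := (Ideal.IsPrime.prod_mem_iff (p := Q)).1 h2
      rw [Polynomial.mem_nthRootsFinset hℓ.pos] at hμ
      haveI : NeZero ℓ := ⟨hℓ.ne_zero⟩
      obtain ⟨j, -, rfl⟩ := hζE.eq_pow_of_pow_eq_one hμ
      exact ⟨j, by rw [map_mul, map_pow]; exact h3⟩
    -- an automorphism moving `α`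
    obtain ⟨σ, hσ⟩ : ∃ σ : Gal(E/K), σ • (α : E) ≠ α := by
      by_contra hcon
      push Not at hcon
      have h4 : (α : E) ∈ (⊥ : IntermediateField K E) := by
        rw [← IsGalois.fixedField_top (F := K) (E := E)]
        rintro ⟨σ, _⟩
        exact hcon σ
      rw [IntermediateField.mem_bot] at h4
      obtain ⟨b, hb⟩ := h4
      apply hw b
      apply (algebraMap K E).injective
      rw [map_pow, hb, ← IsScalarTower.algebraMap_apply]
      have := congrArg (algebraMap (𝓞 E) E) hα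
      rw [map_pow] at this
      rw [this, ← IsScalarTower.algebraMap_apply]
    have hσ' : σ • α ≠ α := by
      intro h
      apply hσ
      have := congrArg (fun z : 𝓞 E => (z : E)) h
      exact this
    -- `σ α = μ α`
    obtain ⟨μ, hμ, hμα⟩ : ∃ μ : 𝓞 E, μ ^ ℓ = 1 ∧ σ • α = μ * α := by
      have h5 : (σ • α) ^ ℓ - α ^ ℓ = 0 := by
        rw [← smul_pow', hα, smul_algebraMap, sub_self]
      rw [IsPrimitiveRoot.pow_sub_pow_eq_prod_sub_mul _ _ hℓ.pos hζE, Finset.prod_eq_zero_iff] at h5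
      obtain ⟨μ, h6, h7⟩ := h5
      rw [Polynomial.mem_nthRootsFinset hℓ.pos] at h6
      exact ⟨μ, h6, sub_eq_zero.1 h7⟩
    have hμ1 : μ ≠ 1 := by
      rintro rfl
      rw [one_mul] at hμα
      exact hσ' hμα
    -- `σ Q = Q`
    have hσQ : σ • Q = Q := by
      have h8 : σ • Q ∈ q.primesOver (𝓞 E) := ⟨inferInstance, inferInstance⟩
      rw [hQ] at h8
      exact h8
    have h9 : σ • (α - algebraMap (𝓞 K) (𝓞 E) (ζ ^ j * t)) ∈ Q := by
      have := Ideal.smul_mem_pointwise_smul σ _ Q hj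
      rwa [hσQ] at this
    rw [smul_sub, smul_algebraMap, hμα] at h9
    have h10 : (μ - 1) * α ∈ Q := by
      have := sub_mem h9 hj
      have e : μ * α - algebraMap (𝓞 K) (𝓞 E) (ζ ^ j * t) -
        (α - algebraMap (𝓞 K) (𝓞 E) (ζ ^ j * t)) = (μ - 1) * α := by ring
      rwa [e] at this
    rcases Ideal.IsPrime.mem_or_mem inferInstance h10 with h11 | h11
    · refine not_one_mem hμ hμ1 ?_ h11
      rw [show (ℓ : 𝓞 E) = algebraMap (𝓞 K) (𝓞 E) (ℓ : 𝓞 K) by simp, hmem]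
      exact hlq
    · apply hwq
      rw [← hmem, ← hα]
      exact Ideal.pow_mem_of_mem _ h11 _ hℓ.pos
  have hg : (q.primesOver (𝓞 E)).ncard = ℓ :=
    ((Nat.dvd_prime hℓ).1 ⟨_, hfund.symm⟩).resolve_left hne
  refine ⟨hg, fun Q hQ => ?_⟩
  haveI := hQ.1
  haveI := hQ.2
  have h1 : Ideal.ramificationIdxIn q (𝓞 E) * Ideal.inertiaDegIn q (𝓞 E) = 1 := by
    rw [hg] at hfund
    exact Nat.eq_of_mul_eq_mul_left hℓ.pos (by rw [hfund, mul_one])
  have h2 := Nat.eq_one_of_mul_eq_one_left h1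
  have h3 := Ideal.absNorm_eq_pow_inertiaDeg'_of_liesOver Q q hq hq0
  rw [Ideal.inertiaDegIn_eq_inertiaDeg q Q Gal(E/K)] at h2
  haveI : q.IsMaximal := hq.isMaximal hq0
  haveI : Q.IsMaximal := Ideal.IsMaximal.of_liesOver_isMaximal Q q
  rw [h3, Ideal.inertiaDeg'_eq_inertiaDeg, h2, pow_one]

end Pool.Agent.T2h69.SL.Split
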